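import Pool.Agent.Helper3.DL.Defs

/-!
# DL-14: the iteration (abstract)
-/

namespace Pool.Agent.DL

open Finset

namespace Iter

/-- `⌊(k - n + 1) B / n⌋` -/
def aa (k n B : ℕ) : ℕ := (k - n + 1) * B / n

theorem mul_aa_le (k n B : ℕ) : n * aa k n B ≤ (k - n + 1) * B := Nat.mul_div_le _ _

theorem aa_le_kB {k n : ℕ} (hn : 1 ≤ n) (hk : n < k) (B : ℕ) : aa k n B ≤ k * B := by
  refine (Nat.div_le_self _ _).trans (Nat.mul_le_mul_right _ (by omega))

theorem aa_anti {k n : ℕ} (hn : 2 ≤ n) (B : ℕ) : aa k n B ≤ aa k (n - 1) B := by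
  refine Nat.div_le_div (Nat.mul_le_mul_right _ (by omega)) (by omega) (by omega)

theorem aa_ge {k n : ℕ} (hn : 1 ≤ n) (hk : n < k) (B : ℕ) :
    ((k : ℝ) - n + 1) * B / n - 1 ≤ aa k n B := by
  have h1 := Nat.div_add_mod ((k - n + 1) * B) n
  have h2 := Nat.mod_lt ((k - n + 1) * B) (show 0 < n by omega)
  have h3 : n * aa k n B + n ≥ (k - n + 1) * B := by
    have : n * aa k n B + ((k - n + 1) * B) % n = (k - n + 1) * B := h1
    omega
  have h4 : ((k - n + 1 : ℕ) : ℝ) = (k : ℝ) - n + 1 := by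
    rw [Nat.cast_add, Nat.cast_sub hk.le, Nat.cast_one]
  have h5 : ((k : ℝ) - n + 1) * B ≤ n * aa k n B + n := by
    rw [← h4]
    exact_mod_cast h3
  have hn0 : (0 : ℝ) < n := by exact_mod_cast hn
  rw [sub_le_iff_le_add, div_le_iff₀ hn0]
  linarith

theorem le_aa_aa {k n B : ℕ} (hn : 1 ≤ n) (hk : n < k) (hB : k ≤ B) :
    B ≤ aa k (k - n) (aa k n B) := by
  obtain ⟨m, rfl⟩ : ∃ m, k = n + m := ⟨k - n, by omega⟩
  have hm : 1 ≤ m := by omega
  have e1 : n + m - n = m := by omega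
  rw [e1]
  have e2 : aa (n + m) m (aa (n + m) n B) = (n + 1) * aa (n + m) n B / m := by
    rw [aa]
    congr 2
    omega
  rw [e2, Nat.le_div_iff_mul_le (by omega)]
  have h1 := Nat.div_add_mod ((n + m - n + 1) * B) n
  have h2 := Nat.mod_lt ((n + m - n + 1) * B) (show 0 < n by omega)
  set r := ((n + m - n + 1) * B) % n with hr
  have h3 : n * aa (n + m) n B + r = (m + 1) * B := by
    have : n * aa (n + m) n B + r = (n + m - n + 1) * B := h1
    rw [this, e1]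
  set A := aa (n + m) n B with hA
  by_contra hcon
  have hcon2 : (n + 1) * A < B * m := by omega
  have h4 : n * ((n + 1) * A) + n ≤ n * (B * m) := by
    calc n * ((n + 1) * A) + n = n * ((n + 1) * A + 1) := by ring
      _ ≤ n * (B * m) := Nat.mul_le_mul_left _ hcon2
  have h5 : (n + 1) * (n * A + r) = (n + 1) * ((m + 1) * B) := by rw [h3]
  have h6 : (n + 1) * r + n ≤ (n + 1) * n := by
    have : r + 1 ≤ n := h2
    nlinarith
  have h7 : (n + m + 1) * (n + m) ≤ (n + m + 1) * B := Nat.mul_le_mul_left _ hB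
  nlinarith

/-- the recursion of the exponents -/
noncomputable def nx (k : ℕ) (x : ℕ → ℝ) (n : ℕ) : ℝ :=
  if n = 0 then x 0 else (((k : ℝ) - n) / (k - n + 1)) * x (n - 1) + x (k - n) / n

/-- the sequence of the exponents -/
noncomputable def XX (k : ℕ) (η : ℝ) : ℕ → ℕ → ℝ
  | 0 => fun n => if n = 0 then η else 0
  | r + 1 => nx k (XX k η r)

theorem XX_zero (k : ℕ) (η : ℝ) (r : ℕ) : XX k η r 0 = η := by
  induction r with
  | zero => simp [XX]
  | succ r ih => rw [XX, nx, if_pos rfl, ih]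

theorem nx_nonneg {k : ℕ} {x : ℕ → ℝ} (hx : ∀ n < k, 0 ≤ x n) : ∀ n < k, 0 ≤ nx k x n := by
  intro n hn
  rw [nx]
  split_ifs with h
  · exact hx 0 (by omega)
  · have h1 := hx (n - 1) (by omega)
    have h2 := hx (k - n) (by omega)
    have h3 : (n : ℝ) < k := by exact_mod_cast hn
    have h4 : (0 : ℝ) ≤ ((k : ℝ) - n) / (k - n + 1) := by
      apply div_nonneg <;> linarith
    positivity

theorem XX_nonneg {k : ℕ} {η : ℝ} (hη : 0 ≤ η) (r : ℕ) : ∀ n < k, 0 ≤ XX k η r n := by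
  induction r with
  | zero =>
    intro n _
    simp only [XX]
    split_ifs
    · exact hη
    · exact le_rfl
  | succ r ih => exact nx_nonneg ih

theorem sum_nx {k : ℕ} (hk : 2 ≤ k) (x : ℕ → ℝ) :
    ∑ n ∈ Ico 1 k, nx k x n = ∑ n ∈ Ico 1 k, x n + (((k : ℝ) - 1) / k) * x 0 := by
  have e1 : ∑ n ∈ Ico 1 k, nx k x n = ∑ n ∈ Ico 1 k, (((k : ℝ) - n) / (k - n + 1)) * x (n - 1) +
      ∑ n ∈ Ico 1 k, x (k - n) / n := by
    rw [← Finset.sum_add_distrib]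
    refine Finset.sum_congr rfl fun n hn => ?_
    rw [nx, if_neg (by have := (Finset.mem_Ico.1 hn).1; omega)]
  have e2 : ∑ n ∈ Ico 1 k, (((k : ℝ) - n) / (k - n + 1)) * x (n - 1) =
      ∑ j ∈ range k, (((k : ℝ) - j - 1) / (k - j)) * x j := by
    obtain ⟨m, rfl⟩ : ∃ m, k = m + 1 := ⟨k - 1, by omega⟩
    rw [Finset.sum_Ico_eq_sum_range, Finset.sum_range_succ, Nat.add_sub_cancel]
    have : ((((m + 1 : ℕ) : ℝ)) - m - 1) = 0 := by push_cast; ring
    rw [this, zero_div, zero_mul, add_zero]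
    refine Finset.sum_congr rfl fun j _ => ?_
    rw [Nat.add_sub_cancel_left]
    congr 2
    · push_cast; ring
    · push_cast; ring
  have e3 : ∑ n ∈ Ico 1 k, x (k - n) / n = ∑ j ∈ Ico 1 k, x j / ((k : ℝ) - j) := by
    refine Finset.sum_bij' (fun n _ => k - n) (fun n _ => k - n) ?_ ?_ ?_ ?_ ?_
    · intro n hn
      have := Finset.mem_Ico.1 hn
      exact Finset.mem_Ico.2 (by omega)
    · intro n hn
      have := Finset.mem_Ico.1 hn
      exact Finset.mem_Ico.2 (by omega)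
    · intro n hn
      have := Finset.mem_Ico.1 hn
      omega
    · intro n hn
      have := Finset.mem_Ico.1 hn
      omega
    · intro n hn
      have := Finset.mem_Ico.1 hn
      rw [Nat.cast_sub (by omega)]
      congr 1
      ring
  rw [e1, e2, e3, Finset.range_eq_Ico, Finset.sum_eq_sum_Ico_succ_bot (by omega), add_assoc,
    ← Finset.sum_add_distrib, add_comm]
  congr 1
  · refine Finset.sum_congr rfl fun j hj => ?_
    have h1 := (Finset.mem_Ico.1 hj).2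
    have h2 : (j : ℝ) < k := by exact_mod_cast h1
    have h3 : (k : ℝ) - j ≠ 0 := by linarith
    field_simp
    ring
  · simp

theorem sum_XX {k : ℕ} (hk : 2 ≤ k) (η : ℝ) (r : ℕ) :
    ∑ n ∈ Ico 1 k, XX k η r n = r * ((((k : ℝ) - 1) / k) * η) := by
  induction r with
  | zero =>
    rw [Nat.cast_zero, zero_mul]
    refine Finset.sum_eq_zero fun n hn => ?_
    have := (Finset.mem_Ico.1 hn).1
    simp only [XX]
    rw [if_neg (by omega)]
  | succ r ih =>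
    have : XX k η (r + 1) = nx k (XX k η r) := rfl
    rw [this, sum_nx hk, ih, XX_zero]
    push_cast
    ring

theorem exists_big {k : ℕ} (hk : 2 ≤ k) (η : ℝ) (r : ℕ) :
    ∃ n, 1 ≤ n ∧ n < k ∧ r * η / k ≤ XX k η r n := by
  by_contra hcon
  push Not at hcon
  have h1 : ∑ n ∈ Ico 1 k, XX k η r n < ∑ n ∈ Ico 1 k, r * η / k := by
    refine Finset.sum_lt_sum_of_nonempty ⟨1, Finset.mem_Ico.2 (by omega)⟩ fun n hn => ?_
    have := Finset.mem_Ico.1 hn
    exact hcon n this.1 this.2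
  rw [sum_XX hk, Finset.sum_const, Nat.card_Ico, nsmul_eq_mul, Nat.cast_sub (by omega)] at h1
  refine absurd h1 (not_lt.2 (le_of_eq ?_))
  push_cast
  ring

/-- the induction property -/
def Pr (k : ℕ) (Mc : ℕ → ℕ → ℕ → ℕ → ℝ → Prop) (η : ℝ) (x : ℕ → ℝ) (b : ℝ) : Prop :=
  ∀ n, 1 ≤ n → n < k → ∀ ε : ℝ, 0 < ε → ∃ K : ℝ, 0 < K ∧ ∀ N B : ℕ, (B : ℝ) ≤ b * N →
    Mc n (aa k n B) B N (K * 2 ^ ((tri k : ℝ) * (η * N - x n * B + ε * N)))

theorem tri_pos {k : ℕ} (hk : 1 ≤ k) : 0 < tri k := by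
  rw [tri]
  have : 2 ≤ k * (k + 1) := by nlinarith
  omega

/-- powers -/
theorem pow_tri (K e : ℝ) (_hK : 0 ≤ K) (s : ℕ) :
    (K * 2 ^ e) ^ s = K ^ s * (2 : ℝ) ^ ((s : ℝ) * e) := by
  rw [mul_pow, ← Real.rpow_natCast ((2 : ℝ) ^ e) s, ← Real.rpow_mul (by norm_num), mul_comm e]

theorem rpow_two_mono {a b : ℝ} (h : a ≤ b) : (2 : ℝ) ^ a ≤ 2 ^ b :=
  Real.rpow_le_rpow_of_exponent_le (by norm_num) h

theorem lin_exp {c : ℝ} (hc : 0 < c) : ∃ C : ℝ, 0 < C ∧ ∀ N : ℕ, (N : ℝ) + 1 ≤ C * 2 ^ (c * N) := by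
  have h1 : (1 : ℝ) < 2 ^ c := Real.one_lt_rpow (by norm_num) hc
  set y := (2 : ℝ) ^ c - 1 with hy
  have hy0 : 0 < y := by linarith
  refine ⟨1 + 1 / y, by positivity, fun N => ?_⟩
  have h2 : 1 + (N : ℝ) * y ≤ (1 + y) ^ N := one_add_mul_le_pow (by linarith) N
  have h3 : (2 : ℝ) ^ (c * N) = (1 + y) ^ N := by
    rw [Real.rpow_mul (by norm_num), Real.rpow_natCast, hy]
    ring
  rw [h3]
  calc (N : ℝ) + 1 ≤ (1 + 1 / y) * (1 + N * y) := by
        have : (1 + 1 / y) * (1 + N * y) = 1 + N * y + 1 / y + N := by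
          field_simp
          ring
        rw [this]
        have : 0 ≤ (N : ℝ) * y := by positivity
        have : 0 ≤ 1 / y := by positivity
        linarith
    _ ≤ _ := mul_le_mul_of_nonneg_left h2 (by positivity)

/-- a convex combination of powers -/
theorem mix (K₁ K₂ e₁ e₂ θ₁ θ₂ : ℝ) (h1 : 0 < K₁) (h2 : 0 < K₂) :
    (K₁ * 2 ^ e₁) ^ θ₁ * (K₂ * 2 ^ e₂) ^ θ₂ =
      (K₁ ^ θ₁ * K₂ ^ θ₂) * (2 : ℝ) ^ (θ₁ * e₁ + θ₂ * e₂) := by
  rw [Real.mul_rpow h1.le (by positivity), Real.mul_rpow h2.le (by positivity),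
    ← Real.rpow_mul (by norm_num), ← Real.rpow_mul (by norm_num), Real.rpow_add (by norm_num),
    mul_comm e₁, mul_comm e₂]
  ring

section
variable {k : ℕ} (hk : 2 ≤ k) {Dc : ℕ → ℝ → Prop} {Mc : ℕ → ℕ → ℕ → ℕ → ℝ → Prop}
  (Dmono : ∀ N D D', D ≤ D' → Dc N D → Dc N D')
  (Mmono : ∀ n A B N M M', M ≤ M' → Mc n A B N M → Mc n A B N M')
  (H1 : ∀ n, 1 ≤ n → n < k → ∀ ε : ℝ, 0 < ε → ∃ K : ℝ, 0 < K ∧ ∀ A A' B N : ℕ, A ≤ A' →
    A' ≤ N → B ≤ N → n * A' ≤ (k - n + 1) * B → ∀ M : ℝ, 0 ≤ M → Mc n A' B N M →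
      Mc n A B N (K * 2 ^ (ε * N) * M))
  (H2 : ∀ n, 1 ≤ n → n < k → ∀ (A B N : ℕ) (M₁ M₂ : ℝ), A ≤ N → B ≤ N → 0 ≤ M₁ → 0 ≤ M₂ →
    Mc (n - 1) A B N M₁ → Mc (k - n) B A N M₂ →
      Mc n A B N (M₁ ^ (((k : ℝ) - n) / (k - n + 1)) * M₂ ^ (1 / ((k : ℝ) - n + 1))))
  (H3 : ∀ (A B N : ℕ) (D : ℝ), A ≤ N → B ≤ N → 0 ≤ D → Dc (N - B) D →
    Mc 0 A B N (D ^ tri k))
  (H4 : ∀ n, 1 ≤ n → n < k → ∀ (N : ℕ) (Mf : ℕ → ℝ), (∀ N', 0 ≤ Mf N') →
    (∀ N' : ℕ, 2 ≤ N' → N' ≤ N → Mc n 2 2 N' (Mf N')) →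
      Dc N (20 * (1 + ∑ N' ∈ range (N + 1), Mf N' ^ (1 / (tri k : ℝ)))))
  (H5 : ∀ n, 1 ≤ n → n < k → ∀ (A A' B B' N : ℕ) (M : ℝ), A ≤ A' → A' ≤ N → B ≤ B' → B' ≤ N →
    0 ≤ M → Mc n A' B' N M → Mc n A B N (2 ^ (2 * tri k * ((A' - A) + (B' - B))) * M))
  (H6 : ∀ n, 1 ≤ n → n < k → ∀ (A B N : ℕ) (M : ℝ), A ≤ N → B ≤ N → 0 ≤ M →
    Mc 0 A B N M → Mc 0 B A N M → Mc n A B N M)

include Mmono H3 in
/-- `Mc 0` -/
theorem mc_zero {K₀ η : ℝ} (hK : 0 < K₀) (hD : ∀ N, Dc N (K₀ * 2 ^ (η * N))) {A B N : ℕ}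
    (hA : A ≤ N) (hB : B ≤ N) :
    Mc 0 A B N (K₀ ^ tri k * 2 ^ ((tri k : ℝ) * (η * N - η * B))) := by
  have h := H3 A B N (K₀ * 2 ^ (η * ((N - B : ℕ) : ℝ))) hA hB (by positivity) (hD (N - B))
  refine Mmono _ _ _ _ _ _ (le_of_eq ?_) h
  rw [pow_tri _ _ hK.le, Nat.cast_sub hB]
  congr 3
  ring

include Mmono H3 H6 in
/-- the trivial bound -/
theorem trivial_bound {K₀ η : ℝ} (hK : 0 < K₀) (hη : 0 ≤ η)
    (hD : ∀ N, Dc N (K₀ * 2 ^ (η * N))) {n : ℕ} (hn : 1 ≤ n) (hnk : n < k) {A B N : ℕ}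
    (hA : A ≤ N) (hB : B ≤ N) :
    Mc n A B N (K₀ ^ tri k * 2 ^ ((tri k : ℝ) * (η * N))) := by
  refine H6 n hn hnk A B N _ hA hB (by positivity) ?_ ?_
  · refine Mmono _ _ _ _ _ _ ?_ (mc_zero Mmono H3 hK hD hA hB)
    refine mul_le_mul_of_nonneg_left (rpow_two_mono ?_) (by positivity)
    refine mul_le_mul_of_nonneg_left ?_ (by positivity)
    have : 0 ≤ η * B := by positivity
    linarith
  · refine Mmono _ _ _ _ _ _ ?_ (mc_zero Mmono H3 hK hD hB hA)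
    refine mul_le_mul_of_nonneg_left (rpow_two_mono ?_) (by positivity)
    refine mul_le_mul_of_nonneg_left ?_ (by positivity)
    have : 0 ≤ η * A := by positivity
    linarith

/-- sizes -/
theorem size {b : ℝ} (hk : 2 ≤ k) (hb : b ≤ 1 / k) {n B N : ℕ} (hn : 1 ≤ n) (hnk : n < k)
    (hB : (B : ℝ) ≤ b * N) : aa k n B ≤ N ∧ B ≤ N := by
  have hk0 : (0 : ℝ) < k := by
    have : 0 < k := by omega
    exact_mod_cast this
  have h1 : (k : ℝ) * B ≤ N := by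
    calc (k : ℝ) * B ≤ k * (b * N) := by gcongr
      _ ≤ k * (1 / k * N) := by gcongr
      _ = N := by field_simp
  have h2 : k * B ≤ N := by exact_mod_cast h1
  refine ⟨(aa_le_kB hn hnk B).trans h2, le_trans ?_ h2⟩
  exact Nat.le_mul_of_pos_left _ (by omega)

include hk Mmono H1 H2 H3 H6 in
/-- one step of the iteration -/
theorem step {η b : ℝ} {x : ℕ → ℝ} (hη : 0 ≤ η) (hb : b ≤ 1 / k)
    (hx0 : x 0 = η) (hxn : ∀ n < k, 0 ≤ x n) {K₀ : ℝ} (hK : 0 < K₀)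
    (hD : ∀ N, Dc N (K₀ * 2 ^ (η * N))) (hP : Pr k Mc η x b) : Pr k Mc η (nx k x) (b / k) := by
  intro n hn hnk ε hε
  have hk0 : (0 : ℝ) < k := by
    have : 0 < k := by omega
    exact_mod_cast this
  have hk1 : (1 : ℝ) ≤ k := by
    have : 1 ≤ k := by omega
    exact_mod_cast this
  have hs : (0 : ℝ) < tri k := by exact_mod_cast tri_pos (by omega : 1 ≤ k)
  have hnk' : (n : ℝ) < k := by exact_mod_cast hnk
  have hn' : (1 : ℝ) ≤ n := by exact_mod_cast hn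
  -- the first factor
  have F1 : ∃ K₁ : ℝ, 0 < K₁ ∧ ∀ N B : ℕ, (B : ℝ) ≤ b * N → B ≤ N → aa k n B ≤ N →
      Mc (n - 1) (aa k n B) B N (K₁ * 2 ^ ((tri k : ℝ) * (η * N - x (n - 1) * B + ε * N))) := by
    rcases Nat.eq_or_lt_of_le hn with h1 | h1
    · refine ⟨K₀ ^ tri k, by positivity, fun N B _ hBN hAN => ?_⟩
      rw [← h1, Nat.sub_self, hx0]
      refine Mmono _ _ _ _ _ _ ?_ (mc_zero Mmono H3 hK hD (h1 ▸ hAN) hBN)
      refine mul_le_mul_of_nonneg_left (rpow_two_mono ?_) (by positivity)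
      refine mul_le_mul_of_nonneg_left ?_ hs.le
      have : 0 ≤ ε * N := by positivity
      linarith
    · obtain ⟨K₁, hK₁, h2⟩ := H1 (n - 1) (by omega) (by omega) (tri k * (ε / 2)) (by positivity)
      obtain ⟨K₂, hK₂, h3⟩ := hP (n - 1) (by omega) (by omega) (ε / 2) (by positivity)
      refine ⟨K₁ * K₂, by positivity, fun N B hB hBN _ => ?_⟩
      have h4 := h2 (aa k n B) (aa k (n - 1) B) B N (aa_anti h1 B)
        (size hk hb (by omega) (by omega) hB).1 hBN (mul_aa_le _ _ _) _ (by positivity) (h3 N B hB)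
      refine Mmono _ _ _ _ _ _ (le_of_eq ?_) h4
      have : (tri k : ℝ) * (η * N - x (n - 1) * B + ε * N) = tri k * (ε / 2) * N +
          tri k * (η * N - x (n - 1) * B + ε / 2 * N) := by ring
      rw [this, Real.rpow_add (by norm_num)]
      ring
  -- the second factor
  have F2 : ∃ K₂ : ℝ, 0 < K₂ ∧ ∀ N B : ℕ, k ≤ B → ((aa k n B : ℕ) : ℝ) ≤ b * N → B ≤ N →
      aa k n B ≤ N → Mc (k - n) B (aa k n B) N
        (K₂ * 2 ^ ((tri k : ℝ) * (η * N - x (k - n) * (aa k n B : ℕ) + ε * N))) := by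
    obtain ⟨K₁, hK₁, h2⟩ := H1 (k - n) (by omega) (by omega) (tri k * (ε / 2)) (by positivity)
    obtain ⟨K₂, hK₂, h3⟩ := hP (k - n) (by omega) (by omega) (ε / 2) (by positivity)
    refine ⟨K₁ * K₂, by positivity, fun N B hkB hA hBN hAN => ?_⟩
    have h4 := h2 B (aa k (k - n) (aa k n B)) (aa k n B) N (le_aa_aa hn hnk hkB)
      (size hk hb (by omega) (by omega) hA).1 hAN (mul_aa_le _ _ _) _ (by positivity)
      (h3 N (aa k n B) hA)
    refine Mmono _ _ _ _ _ _ (le_of_eq ?_) h4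
    have : (tri k : ℝ) * (η * N - x (k - n) * (aa k n B : ℕ) + ε * N) = tri k * (ε / 2) * N +
        tri k * (η * N - x (k - n) * (aa k n B : ℕ) + ε / 2 * N) := by ring
    rw [this, Real.rpow_add (by norm_num)]
    ring
  obtain ⟨K₁, hK₁, F1⟩ := F1
  obtain ⟨K₂, hK₂, F2⟩ := F2
  set θ₁ : ℝ := ((k : ℝ) - n) / (k - n + 1) with hθ₁
  set θ₂ : ℝ := 1 / ((k : ℝ) - n + 1) with hθ₂
  have hden : (0 : ℝ) < (k : ℝ) - n + 1 := by linarith
  have hθ₂0 : 0 < θ₂ := by positivity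
  have hθ : θ₁ + θ₂ = 1 := by
    rw [hθ₁, hθ₂]
    field_simp
  have hx1 := hxn (n - 1) (by omega)
  have hx2 := hxn (k - n) (by omega)
  have hx3 := nx_nonneg hxn n hnk
  have hnx : nx k x n = θ₁ * x (n - 1) + x (k - n) / n := by
    rw [nx, if_neg (by omega)]
  refine ⟨K₁ ^ θ₁ * K₂ ^ θ₂ * 2 ^ ((tri k : ℝ) * (θ₂ * x (k - n))) +
    K₀ ^ tri k * 2 ^ ((tri k : ℝ) * (nx k x n * k)), by positivity, fun N B hB => ?_⟩
  have hbk : b / k ≤ 1 / k := by
    have h1 : b ≤ 1 := hb.trans (by rw [div_le_one hk0]; exact hk1)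
    exact div_le_div_of_nonneg_right h1 hk0.le
  obtain ⟨hAN, hBN⟩ := size hk hbk hn hnk hB
  by_cases hBk : k ≤ B
  · have hB0 : (0 : ℝ) < B := by
      have : 0 < B := by omega
      exact_mod_cast this
    have hkB : (k : ℝ) * B ≤ b * N := by
      have := mul_le_mul_of_nonneg_left hB hk0.le
      calc (k : ℝ) * B ≤ k * (b / k * N) := this
        _ = b * N := by field_simp
    have hB' : (B : ℝ) ≤ b * N := by
      refine le_trans ?_ hkB
      nlinarith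
    have hA' : ((aa k n B : ℕ) : ℝ) ≤ b * N := by
      refine le_trans ?_ hkB
      exact_mod_cast aa_le_kB hn hnk B
    have h := H2 n hn hnk (aa k n B) B N _ _ hAN hBN (by positivity) (by positivity)
      (F1 N B hB' hBN hAN) (F2 N B hBk hA' hBN hAN)
    refine Mmono _ _ _ _ _ _ ?_ h
    rw [← hθ₁, ← hθ₂, mix _ _ _ _ _ _ hK₁ hK₂]
    have hexp : θ₁ * ((tri k : ℝ) * (η * N - x (n - 1) * B + ε * N)) +
        θ₂ * ((tri k : ℝ) * (η * N - x (k - n) * (aa k n B : ℕ) + ε * N)) ≤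
        (tri k : ℝ) * (θ₂ * x (k - n)) +
          (tri k : ℝ) * (η * N - nx k x n * B + ε * N) := by
      have hA := aa_ge hn hnk B
      have h5 : θ₂ * x (k - n) * (((k : ℝ) - n + 1) * B / n - 1) ≤
          θ₂ * x (k - n) * (aa k n B : ℕ) := mul_le_mul_of_nonneg_left hA (by positivity)
      have h6 : θ₂ * x (k - n) * (((k : ℝ) - n + 1) * B / n - 1) =
          x (k - n) / n * B - θ₂ * x (k - n) := by
        rw [hθ₂]
        field_simp
      rw [h6] at h5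
      have h7 : θ₁ * ((tri k : ℝ) * (η * N - x (n - 1) * B + ε * N)) +
        θ₂ * ((tri k : ℝ) * (η * N - x (k - n) * (aa k n B : ℕ) + ε * N)) =
        (tri k : ℝ) * ((θ₁ + θ₂) * (η * N + ε * N) - θ₁ * x (n - 1) * B -
          θ₂ * x (k - n) * (aa k n B : ℕ)) := by ring
      rw [h7, ← mul_add, hθ, hnx]
      refine mul_le_mul_of_nonneg_left ?_ hs.le
      linarith
    calc K₁ ^ θ₁ * K₂ ^ θ₂ * (2 : ℝ) ^ (θ₁ * ((tri k : ℝ) * (η * N - x (n - 1) * B + ε * N)) +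
        θ₂ * ((tri k : ℝ) * (η * N - x (k - n) * (aa k n B : ℕ) + ε * N)))
        ≤ K₁ ^ θ₁ * K₂ ^ θ₂ * (2 : ℝ) ^ ((tri k : ℝ) * (θ₂ * x (k - n)) +
          (tri k : ℝ) * (η * N - nx k x n * B + ε * N)) :=
          mul_le_mul_of_nonneg_left (rpow_two_mono hexp) (by positivity)
      _ = (K₁ ^ θ₁ * K₂ ^ θ₂ * 2 ^ ((tri k : ℝ) * (θ₂ * x (k - n)))) *
          2 ^ ((tri k : ℝ) * (η * N - nx k x n * B + ε * N)) := by
        rw [Real.rpow_add (by norm_num)]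
        ring
      _ ≤ _ := by
        refine mul_le_mul_of_nonneg_right ?_ (by positivity)
        have : 0 ≤ K₀ ^ tri k * (2 : ℝ) ^ ((tri k : ℝ) * (nx k x n * k)) := by positivity
        linarith
  · have h := trivial_bound Mmono H3 H6 hK hη hD hn hnk hAN hBN
    refine Mmono _ _ _ _ _ _ ?_ h
    have hBk' : (B : ℝ) ≤ k := by
      have : B ≤ k := by omega
      exact_mod_cast this
    have hexp : (tri k : ℝ) * (η * N) ≤ (tri k : ℝ) * (nx k x n * k) +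
        (tri k : ℝ) * (η * N - nx k x n * B + ε * N) := by
      rw [← mul_add]
      refine mul_le_mul_of_nonneg_left ?_ hs.le
      have h8 : nx k x n * B ≤ nx k x n * k := mul_le_mul_of_nonneg_left hBk' hx3
      have : 0 ≤ ε * N := by positivity
      linarith
    calc K₀ ^ tri k * (2 : ℝ) ^ ((tri k : ℝ) * (η * N)) ≤
        K₀ ^ tri k * (2 : ℝ) ^ ((tri k : ℝ) * (nx k x n * k) +
        (tri k : ℝ) * (η * N - nx k x n * B + ε * N)) :=
          mul_le_mul_of_nonneg_left (rpow_two_mono hexp) (by positivity)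
      _ = (K₀ ^ tri k * 2 ^ ((tri k : ℝ) * (nx k x n * k))) *
          2 ^ ((tri k : ℝ) * (η * N - nx k x n * B + ε * N)) := by
        rw [Real.rpow_add (by norm_num)]
        ring
      _ ≤ _ := by
        refine mul_le_mul_of_nonneg_right ?_ (by positivity)
        have : 0 ≤ K₁ ^ θ₁ * K₂ ^ θ₂ * (2 : ℝ) ^ ((tri k : ℝ) * (θ₂ * x (k - n))) := by
          positivity
        linarith

include hk Mmono H1 H2 H3 H6 in
theorem iter {η : ℝ} (hη : 0 ≤ η) {K₀ : ℝ} (hK : 0 < K₀)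
    (hD : ∀ N, Dc N (K₀ * 2 ^ (η * N))) (r : ℕ) :
    Pr k Mc η (XX k η r) ((1 / k : ℝ) / k ^ r) := by
  have hk0 : (0 : ℝ) < k := by
    have : 0 < k := by omega
    exact_mod_cast this
  have hk1 : (1 : ℝ) ≤ k := by
    have : 1 ≤ k := by omega
    exact_mod_cast this
  induction r with
  | zero =>
    intro n hn hnk ε hε
    refine ⟨K₀ ^ tri k, by positivity, fun N B hB => ?_⟩
    rw [pow_zero, div_one] at hB
    obtain ⟨hAN, hBN⟩ := size hk le_rfl hn hnk hB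
    refine Mmono _ _ _ _ _ _ ?_ (trivial_bound Mmono H3 H6 hK hη hD hn hnk hAN hBN)
    refine mul_le_mul_of_nonneg_left (rpow_two_mono ?_) (by positivity)
    refine mul_le_mul_of_nonneg_left ?_ (by positivity)
    have h1 : XX k η 0 n = 0 := by
      simp only [XX]
      rw [if_neg (by omega)]
    rw [h1]
    have : 0 ≤ ε * N := by positivity
    linarith
  | succ r ih =>
    have h1 : ((1 / k : ℝ) / k ^ (r + 1)) = (1 / k : ℝ) / k ^ r / k := by
      rw [pow_succ, ← div_div]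
    rw [h1]
    refine step hk Mmono H1 H2 H3 H6 hη ?_ (XX_zero k η r) (XX_nonneg hη r) hK hD ih
    exact div_le_self (by positivity) (one_le_pow₀ hk1)

include hk Dmono Mmono H3 H4 H5 H6 in
theorem final {η b : ℝ} {x : ℕ → ℝ} (hη : 0 ≤ η) (hb0 : 0 < b) (hb : b ≤ 1 / k)
    (hbη : b ≤ η) {K₀ : ℝ} (hK : 0 < K₀) (hD : ∀ N, Dc N (K₀ * 2 ^ (η * N)))
    (hP : Pr k Mc η x b) {n : ℕ} (hn : 1 ≤ n) (hnk : n < k) (hx : 2 * ((k : ℝ) + 1) + 2 ≤ x n) :
    ∃ K : ℝ, 0 < K ∧ ∀ N : ℕ, Dc N (K * 2 ^ ((η - b / 2) * N)) := by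
  have hk0 : (0 : ℝ) < k := by
    have : 0 < k := by omega
    exact_mod_cast this
  have hs : (0 : ℝ) < tri k := by exact_mod_cast tri_pos (by omega : 1 ≤ k)
  obtain ⟨K₁, hK₁, h1⟩ := hP n hn hnk b hb0
  set K₂ : ℝ := K₁ * 2 ^ ((tri k : ℝ) * 2) + K₀ ^ tri k * 2 ^ ((tri k : ℝ) * k) with hK₂
  have hK₂0 : 0 < K₂ := by positivity
  have key : ∀ N : ℕ, 2 ≤ N → Mc n 2 2 N (K₂ * 2 ^ ((tri k : ℝ) * ((η - b) * N))) := by
    intro N hN
    set B := ⌊b * (N : ℝ)⌋₊ with hB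
    have hBle : (B : ℝ) ≤ b * N := Nat.floor_le (by positivity)
    have hBgt : b * N < B + 1 := Nat.lt_floor_add_one _
    obtain ⟨hAN, hBN⟩ := size hk hb hn hnk hBle
    by_cases hBk : k ≤ B
    · have h2A : 2 ≤ aa k n B := by
        rw [aa, Nat.le_div_iff_mul_le (by omega)]
        calc 2 * n ≤ 2 * B := by omega
          _ ≤ (k - n + 1) * B := Nat.mul_le_mul_right _ (by omega)
      have h := H5 n hn hnk 2 (aa k n B) 2 B N _ h2A hAN (by omega) hBN (by positivity)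
        (h1 N B hBle)
      refine Mmono _ _ _ _ _ _ ?_ h
      have hnat : 2 * tri k * ((aa k n B - 2) + (B - 2)) ≤ 2 * tri k * ((k + 1) * B) := by
        refine Nat.mul_le_mul_left _ ?_
        have := aa_le_kB hn hnk B
        have h9 : (k + 1) * B = k * B + B := by ring
        omega
      have hp : (2 : ℝ) ^ (2 * tri k * ((aa k n B - 2) + (B - 2))) ≤
          2 ^ ((tri k : ℝ) * (2 * (((k : ℝ) + 1) * B))) := by
        refine (pow_le_pow_right₀ (by norm_num) hnat).trans (le_of_eq ?_)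
        rw [← Real.rpow_natCast]
        congr 1
        push_cast
        ring
      calc (2 : ℝ) ^ (2 * tri k * ((aa k n B - 2) + (B - 2))) *
          (K₁ * 2 ^ ((tri k : ℝ) * (η * N - x n * B + b * N)))
          ≤ 2 ^ ((tri k : ℝ) * (2 * (((k : ℝ) + 1) * B))) *
          (K₁ * 2 ^ ((tri k : ℝ) * (η * N - x n * B + b * N))) :=
            mul_le_mul_of_nonneg_right hp (by positivity)
        _ = K₁ * 2 ^ ((tri k : ℝ) * (2 * (((k : ℝ) + 1) * B)) +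
            (tri k : ℝ) * (η * N - x n * B + b * N)) := by
            rw [Real.rpow_add (by norm_num)]
            ring
        _ ≤ K₁ * 2 ^ ((tri k : ℝ) * 2 + (tri k : ℝ) * ((η - b) * N)) := by
            refine mul_le_mul_of_nonneg_left (rpow_two_mono ?_) hK₁.le
            rw [← mul_add, ← mul_add]
            refine mul_le_mul_of_nonneg_left ?_ hs.le
            have hxB : (2 * ((k : ℝ) + 1) + 2) * B ≤ x n * B :=
              mul_le_mul_of_nonneg_right hx (by positivity)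
            nlinarith
        _ = (K₁ * 2 ^ ((tri k : ℝ) * 2)) * 2 ^ ((tri k : ℝ) * ((η - b) * N)) := by
            rw [Real.rpow_add (by norm_num)]
            ring
        _ ≤ _ := by
            refine mul_le_mul_of_nonneg_right ?_ (by positivity)
            have : 0 ≤ K₀ ^ tri k * (2 : ℝ) ^ ((tri k : ℝ) * k) := by positivity
            linarith
    · refine Mmono _ _ _ _ _ _ ?_ (trivial_bound Mmono H3 H6 hK hη hD hn hnk hN hN)
      have hBk' : (B : ℝ) + 1 ≤ k := by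
        have : B + 1 ≤ k := by omega
        exact_mod_cast this
      calc K₀ ^ tri k * (2 : ℝ) ^ ((tri k : ℝ) * (η * N)) ≤
          K₀ ^ tri k * (2 : ℝ) ^ ((tri k : ℝ) * k + (tri k : ℝ) * ((η - b) * N)) := by
            refine mul_le_mul_of_nonneg_left (rpow_two_mono ?_) (by positivity)
            rw [← mul_add]
            refine mul_le_mul_of_nonneg_left ?_ hs.le
            nlinarith
        _ = (K₀ ^ tri k * 2 ^ ((tri k : ℝ) * k)) * 2 ^ ((tri k : ℝ) * ((η - b) * N)) := by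
            rw [Real.rpow_add (by norm_num)]
            ring
        _ ≤ _ := by
            refine mul_le_mul_of_nonneg_right ?_ (by positivity)
            have : 0 ≤ K₁ * (2 : ℝ) ^ ((tri k : ℝ) * 2) := by positivity
            linarith
  obtain ⟨C, hC, hlin⟩ := lin_exp (show 0 < b / 2 by positivity)
  set K₃ : ℝ := K₂ ^ (1 / (tri k : ℝ)) with hK₃
  have hK₃0 : 0 < K₃ := by positivity
  refine ⟨20 * (1 + K₃) * C, by positivity, fun N => ?_⟩
  have h4 := H4 n hn hnk N (fun N' => K₂ * 2 ^ ((tri k : ℝ) * ((η - b) * N')))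
    (fun N' => by positivity) (fun N' h2 _ => key N' h2)
  refine Dmono _ _ _ ?_ h4
  have hterm : ∀ N' : ℕ, (K₂ * (2 : ℝ) ^ ((tri k : ℝ) * ((η - b) * N'))) ^ (1 / (tri k : ℝ)) =
      K₃ * 2 ^ ((η - b) * N') := by
    intro N'
    rw [Real.mul_rpow hK₂0.le (by positivity), ← Real.rpow_mul (by norm_num), hK₃]
    congr 2
    field_simp
  have hηb : 0 ≤ η - b := by linarith
  have hsum : ∑ N' ∈ range (N + 1),
      (K₂ * (2 : ℝ) ^ ((tri k : ℝ) * ((η - b) * N'))) ^ (1 / (tri k : ℝ)) ≤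
      (N + 1) * (K₃ * 2 ^ ((η - b) * N)) := by
    calc ∑ N' ∈ range (N + 1),
        (K₂ * (2 : ℝ) ^ ((tri k : ℝ) * ((η - b) * N'))) ^ (1 / (tri k : ℝ))
        ≤ ∑ N' ∈ range (N + 1), K₃ * 2 ^ ((η - b) * N) := by
          refine Finset.sum_le_sum fun N' hN' => ?_
          rw [hterm]
          refine mul_le_mul_of_nonneg_left (rpow_two_mono ?_) hK₃0.le
          refine mul_le_mul_of_nonneg_left ?_ hηb
          have := Finset.mem_range.1 hN'
          exact_mod_cast (by omega : N' ≤ N)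
      _ = _ := by
        rw [Finset.sum_const, Finset.card_range, nsmul_eq_mul]
        push_cast
        ring
  have hone : (1 : ℝ) ≤ 2 ^ ((η - b) * N) := Real.one_le_rpow (by norm_num) (by positivity)
  have hN1 : (1 : ℝ) ≤ N + 1 := by
    have : (0 : ℝ) ≤ N := by positivity
    linarith
  set E : ℝ := 2 ^ ((η - b) * N) with hE
  have hE0 : 0 < E := by positivity
  calc 20 * (1 + ∑ N' ∈ range (N + 1),
        (K₂ * (2 : ℝ) ^ ((tri k : ℝ) * ((η - b) * N'))) ^ (1 / (tri k : ℝ)))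
      ≤ 20 * (1 + (N + 1) * (K₃ * E)) := by
        refine mul_le_mul_of_nonneg_left ?_ (by norm_num)
        linarith
    _ ≤ 20 * ((N + 1) * E + (N + 1) * (K₃ * E)) := by
        refine mul_le_mul_of_nonneg_left ?_ (by norm_num)
        have : (1 : ℝ) ≤ (N + 1) * E := by nlinarith
        linarith
    _ = 20 * (1 + K₃) * ((N + 1) * E) := by ring
    _ ≤ 20 * (1 + K₃) * ((C * 2 ^ (b / 2 * N)) * E) := by
        refine mul_le_mul_of_nonneg_left ?_ (by positivity)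
        exact mul_le_mul_of_nonneg_right (hlin N) hE0.le
    _ = 20 * (1 + K₃) * C * (2 ^ (b / 2 * N) * E) := by ring
    _ = _ := by
        rw [hE, ← Real.rpow_add (by norm_num)]
        congr 2
        ring

include hk Dmono Mmono H1 H2 H3 H4 H5 H6 in
/-- the gain depends only on a lower bound of the exponent -/
theorem gain {η₀ : ℝ} (hη₀ : 0 < η₀) (_hη₁ : η₀ ≤ 1) : ∃ β : ℝ, 0 < β ∧ ∀ η : ℝ, η₀ ≤ η →
    (∃ K : ℝ, 0 < K ∧ ∀ N : ℕ, Dc N (K * 2 ^ (η * N))) →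
      ∃ K : ℝ, 0 < K ∧ ∀ N : ℕ, Dc N (K * 2 ^ ((η - β) * N)) := by
  have hk0 : (0 : ℝ) < k := by
    have : 0 < k := by omega
    exact_mod_cast this
  have hk1 : (1 : ℝ) ≤ k := by
    have : 1 ≤ k := by omega
    exact_mod_cast this
  obtain ⟨r, hr⟩ := exists_nat_ge ((2 * ((k : ℝ) + 1) + 2) * k / η₀)
  rw [div_le_iff₀ hη₀] at hr
  set b : ℝ := min ((1 / k : ℝ) / k ^ r) η₀ with hb
  have hb0 : 0 < b := lt_min (by positivity) hη₀
  refine ⟨b / 2, by positivity, ?_⟩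
  rintro η hη ⟨K₀, hK, hD⟩
  have hηpos : 0 ≤ η := by linarith
  obtain ⟨n, hn, hnk, hx⟩ := exists_big hk η r
  have hx' : 2 * ((k : ℝ) + 1) + 2 ≤ XX k η r n := by
    refine le_trans ?_ hx
    rw [le_div_iff₀ hk0]
    refine hr.trans ?_
    exact mul_le_mul_of_nonneg_left hη (by positivity)
  have hP := iter hk Mmono H1 H2 H3 H6 hηpos hK hD r
  have hP' : Pr k Mc η (XX k η r) b := by
    intro n hn hnk ε hε
    obtain ⟨K, hK, h⟩ := hP n hn hnk ε hε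
    refine ⟨K, hK, fun N B hB => h N B (hB.trans ?_)⟩
    exact mul_le_mul_of_nonneg_right (min_le_left _ _) (by positivity)
  refine final hk Dmono Mmono H3 H4 H5 H6 hηpos hb0 ?_ ((min_le_right _ _).trans hη) hK hD hP' hn
    hnk hx'
  refine (min_le_left _ _).trans ?_
  exact div_le_self (by positivity) (one_le_pow₀ hk1)

end

end Iter

open Iter in
theorem iteration (k : ℕ) (hk : 2 ≤ k) (Dc : ℕ → ℝ → Prop) (Mc : ℕ → ℕ → ℕ → ℕ → ℝ → Prop)
    (Dmono : ∀ N D D', D ≤ D' → Dc N D → Dc N D')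
    (Mmono : ∀ n A B N M M', M ≤ M' → Mc n A B N M → Mc n A B N M')
    (H0 : ∀ N, Dc N (2 ^ N))
    (H1 : ∀ n, 1 ≤ n → n < k → ∀ ε : ℝ, 0 < ε → ∃ K : ℝ, 0 < K ∧ ∀ A A' B N : ℕ, A ≤ A' →
      A' ≤ N → B ≤ N → n * A' ≤ (k - n + 1) * B → ∀ M : ℝ, 0 ≤ M → Mc n A' B N M →
        Mc n A B N (K * 2 ^ (ε * N) * M))
    (H2 : ∀ n, 1 ≤ n → n < k → ∀ (A B N : ℕ) (M₁ M₂ : ℝ), A ≤ N → B ≤ N → 0 ≤ M₁ → 0 ≤ M₂ →
      Mc (n - 1) A B N M₁ → Mc (k - n) B A N M₂ →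
        Mc n A B N (M₁ ^ (((k : ℝ) - n) / (k - n + 1)) * M₂ ^ (1 / ((k : ℝ) - n + 1))))
    (H3 : ∀ (A B N : ℕ) (D : ℝ), A ≤ N → B ≤ N → 0 ≤ D → Dc (N - B) D →
      Mc 0 A B N (D ^ tri k))
    (H4 : ∀ n, 1 ≤ n → n < k → ∀ (N : ℕ) (Mf : ℕ → ℝ), (∀ N', 0 ≤ Mf N') →
      (∀ N' : ℕ, 2 ≤ N' → N' ≤ N → Mc n 2 2 N' (Mf N')) →
        Dc N (20 * (1 + ∑ N' ∈ range (N + 1), Mf N' ^ (1 / (tri k : ℝ)))))
    (H5 : ∀ n, 1 ≤ n → n < k → ∀ (A A' B B' N : ℕ) (M : ℝ), A ≤ A' → A' ≤ N → B ≤ B' → B' ≤ N →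
      0 ≤ M → Mc n A' B' N M → Mc n A B N (2 ^ (2 * tri k * ((A' - A) + (B' - B))) * M))
    (H6 : ∀ n, 1 ≤ n → n < k → ∀ (A B N : ℕ) (M : ℝ), A ≤ N → B ≤ N → 0 ≤ M →
      Mc 0 A B N M → Mc 0 B A N M → Mc n A B N M)
    (ε : ℝ) (hε : 0 < ε) : ∃ K : ℝ, 0 < K ∧ ∀ N : ℕ, Dc N (K * 2 ^ (ε * N)) := by
  have hmono : ∀ η η' : ℝ, η ≤ η' → (∃ K : ℝ, 0 < K ∧ ∀ N : ℕ, Dc N (K * 2 ^ (η * N))) →
      ∃ K : ℝ, 0 < K ∧ ∀ N : ℕ, Dc N (K * 2 ^ (η' * N)) := by
    rintro η η' h ⟨K, hK, hD⟩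
    refine ⟨K, hK, fun N => Dmono _ _ _ ?_ (hD N)⟩
    refine mul_le_mul_of_nonneg_left (rpow_two_mono ?_) hK.le
    exact mul_le_mul_of_nonneg_right h (by positivity)
  have hone : ∃ K : ℝ, 0 < K ∧ ∀ N : ℕ, Dc N (K * 2 ^ ((1 : ℝ) * N)) := by
    refine ⟨1, one_pos, fun N => ?_⟩
    rw [one_mul, one_mul, Real.rpow_natCast]
    exact H0 N
  rcases le_or_gt 1 ε with h1 | h1
  · exact hmono 1 ε h1 hone
  obtain ⟨β, hβ, hgain⟩ := gain hk Dmono Mmono H1 H2 H3 H4 H5 H6 hε h1.le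
  have key : ∀ j : ℕ, ∃ K : ℝ, 0 < K ∧ ∀ N : ℕ, Dc N (K * 2 ^ (max ε (1 - j * β) * N)) := by
    intro j
    induction j with
    | zero =>
      refine hmono 1 _ ?_ hone
      rw [Nat.cast_zero, zero_mul, sub_zero]
      exact le_max_right _ _
    | succ j ih =>
      refine hmono _ _ ?_ (hgain _ (le_max_left _ _) ih)
      rw [sub_le_iff_le_add]
      refine max_le ?_ ?_
      · have := le_max_left ε (1 - ((j + 1 : ℕ) : ℝ) * β)
        linarith
      · have := le_max_right ε (1 - ((j + 1 : ℕ) : ℝ) * β)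
        push_cast at this ⊢
        linarith
  obtain ⟨j, hj⟩ := exists_nat_ge (1 / β)
  rw [div_le_iff₀ hβ] at hj
  have h2 := key j
  rwa [max_eq_left (by linarith)] at h2

end Pool.Agent.DL
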